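import Pool.Agent.helper237_G5.Data

namespace Pool.Agent.helper237_G5

set_option maxRecDepth 100000

theorem run_3_4 : checkA DD 3 4 = true := by decide +kernel

theorem run_4_5 : checkA DD 4 5 = true := by decide +kernel

theorem run_5_6 : checkA DD 5 6 = true := by decide +kernel

end Pool.Agent.helper237_G5
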