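import Pool.Agent.helper237_G5.Data

namespace Pool.Agent.helper237_G5

set_option maxRecDepth 100000

theorem run_6_7 : checkA DD 6 7 = true := by decide +kernel

theorem run_7_8 : checkA DD 7 8 = true := by decide +kernel

theorem run_8_9 : checkA DD 8 9 = true := by decide +kernel

end Pool.Agent.helper237_G5
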