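import Pool.Agent.helper237_G5.Data

namespace Pool.Agent.helper237_G5

set_option maxRecDepth 100000

theorem run_9_10 : checkA DD 9 10 = true := by decide +kernel

theorem run_10_11 : checkA DD 10 11 = true := by decide +kernel

theorem run_11_12 : checkA DD 11 12 = true := by decide +kernel

end Pool.Agent.helper237_G5
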