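import Pool.Agent.helper237_G5.Data

namespace Pool.Agent.helper237_G5

set_option maxRecDepth 100000

theorem run_12_13 : checkA DD 12 13 = true := by decide +kernel

theorem run_13_14 : checkA DD 13 14 = true := by decide +kernel

theorem run_14_15 : checkA DD 14 15 = true := by decide +kernel

end Pool.Agent.helper237_G5
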