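import Pool.Agent.helper237_G5.Data

namespace Pool.Agent.helper237_G5

set_option maxRecDepth 100000

theorem run_15_16 : checkA DD 15 16 = true := by decide +kernel

theorem run_16_17 : checkA DD 16 17 = true := by decide +kernel

theorem run_17_18 : checkA DD 17 18 = true := by decide +kernel

end Pool.Agent.helper237_G5
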