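import Pool.Agent.helper237_G5.Data

namespace Pool.Agent.helper237_G5

set_option maxRecDepth 100000

theorem run_18_19 : checkA DD 18 19 = true := by decide +kernel

theorem run_19_20 : checkA DD 19 20 = true := by decide +kernel

theorem run_20_21 : checkA DD 20 21 = true := by decide +kernel

end Pool.Agent.helper237_G5
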