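import Pool.Agent.helper237_G5.Data

namespace Pool.Agent.helper237_G5

set_option maxRecDepth 100000

theorem run_21_22 : checkA DD 21 22 = true := by decide +kernel

theorem run_22_23 : checkA DD 22 23 = true := by decide +kernel

theorem run_23_24 : checkA DD 23 24 = true := by decide +kernel

end Pool.Agent.helper237_G5
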