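import Pool.Agent.helper237_G5.Data

namespace Pool.Agent.helper237_G5

set_option maxRecDepth 100000

theorem run_24_25 : checkA DD 24 25 = true := by decide +kernel

theorem run_25_26 : checkA DD 25 26 = true := by decide +kernel

theorem run_26_27 : checkA DD 26 27 = true := by decide +kernel

end Pool.Agent.helper237_G5
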