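import Pool.Agent.helper237_G5.Data

namespace Pool.Agent.helper237_G5

set_option maxRecDepth 100000

theorem run_27_28 : checkA DD 27 28 = true := by decide +kernel

theorem run_28_29 : checkA DD 28 29 = true := by decide +kernel

theorem run_29_30 : checkA DD 29 30 = true := by decide +kernel

end Pool.Agent.helper237_G5
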