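import Pool.Agent.helper237_G5.Data

namespace Pool.Agent.helper237_G5

set_option maxRecDepth 100000

theorem run_30_31 : checkA DD 30 31 = true := by decide +kernel

theorem run_31_32 : checkA DD 31 32 = true := by decide +kernel

theorem run_32_33 : checkA DD 32 33 = true := by decide +kernel

end Pool.Agent.helper237_G5
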