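import Pool.Agent.helper237_G5.Data

namespace Pool.Agent.helper237_G5

set_option maxRecDepth 100000

theorem run_33_34 : checkA DD 33 34 = true := by decide +kernel

theorem run_34_35 : checkA DD 34 35 = true := by decide +kernel

theorem run_35_36 : checkA DD 35 36 = true := by decide +kernel

end Pool.Agent.helper237_G5
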