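import Pool.Agent.helper237_G5.Data

namespace Pool.Agent.helper237_G5

set_option maxRecDepth 100000

theorem run_48_49 : checkA DD 48 49 = true := by decide +kernel

theorem run_49_50 : checkA DD 49 50 = true := by decide +kernel

theorem run_50_51 : checkA DD 50 51 = true := by decide +kernel

end Pool.Agent.helper237_G5
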