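import Pool.Agent.helper237_G5.Data

namespace Pool.Agent.helper237_G5

set_option maxRecDepth 100000

theorem run_51_52 : checkA DD 51 52 = true := by decide +kernel

theorem run_52_53 : checkA DD 52 53 = true := by decide +kernel

theorem run_53_54 : checkA DD 53 54 = true := by decide +kernel

end Pool.Agent.helper237_G5
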