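import Pool.Agent.helper237_G5.Data

namespace Pool.Agent.helper237_G5

set_option maxRecDepth 100000

theorem run_54_55 : checkA DD 54 55 = true := by decide +kernel

theorem run_55_56 : checkA DD 55 56 = true := by decide +kernel

theorem run_56_57 : checkA DD 56 57 = true := by decide +kernel

end Pool.Agent.helper237_G5
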