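import Pool.Agent.helper237_G5.Data

namespace Pool.Agent.helper237_G5

set_option maxRecDepth 100000

theorem run_57_58 : checkA DD 57 58 = true := by decide +kernel

theorem run_58_59 : checkA DD 58 59 = true := by decide +kernel

theorem run_59_60 : checkA DD 59 60 = true := by decide +kernel

end Pool.Agent.helper237_G5
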