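import Pool.Agent.helper237_G5.Data

namespace Pool.Agent.helper237_G5

set_option maxRecDepth 100000

theorem run_60_61 : checkA DD 60 61 = true := by decide +kernel

theorem run_61_62 : checkA DD 61 62 = true := by decide +kernel

theorem run_62_63 : checkA DD 62 63 = true := by decide +kernel

end Pool.Agent.helper237_G5
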