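import Pool.Agent.helper237_G5.Data

namespace Pool.Agent.helper237_G5

set_option maxRecDepth 100000

theorem run_63_64 : checkA DD 63 64 = true := by decide +kernel

theorem run_64_65 : checkA DD 64 65 = true := by decide +kernel

theorem run_65_66 : checkA DD 65 66 = true := by decide +kernel

end Pool.Agent.helper237_G5
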