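import Pool.Agent.helper237_G5.Data

namespace Pool.Agent.helper237_G5

set_option maxRecDepth 100000

theorem run_66_67 : checkA DD 66 67 = true := by decide +kernel

theorem run_67_68 : checkA DD 67 68 = true := by decide +kernel

theorem run_68_69 : checkA DD 68 69 = true := by decide +kernel

end Pool.Agent.helper237_G5
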