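import Pool.Agent.helper237_G5.Data

namespace Pool.Agent.helper237_G5

set_option maxRecDepth 100000

theorem run_69_70 : checkA DD 69 70 = true := by decide +kernel

theorem run_70_71 : checkA DD 70 71 = true := by decide +kernel

theorem run_71_72 : checkA DD 71 72 = true := by decide +kernel

end Pool.Agent.helper237_G5
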