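import Pool.Agent.helper237_G5.Data

namespace Pool.Agent.helper237_G5

set_option maxRecDepth 100000

theorem run_72_73 : checkA DD 72 73 = true := by decide +kernel

theorem run_73_74 : checkA DD 73 74 = true := by decide +kernel

theorem run_74_75 : checkA DD 74 75 = true := by decide +kernel

end Pool.Agent.helper237_G5
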