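import Pool.Agent.helper237_G5.Data

namespace Pool.Agent.helper237_G5

set_option maxRecDepth 100000

theorem run_78_79 : checkA DD 78 79 = true := by decide +kernel

theorem run_79_80 : checkA DD 79 80 = true := by decide +kernel

theorem run_80_81 : checkA DD 80 81 = true := by decide +kernel

end Pool.Agent.helper237_G5
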