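import Pool.Agent.helper237_G5.Data

namespace Pool.Agent.helper237_G5

set_option maxRecDepth 100000

theorem run_81_82 : checkA DD 81 82 = true := by decide +kernel

theorem run_82_83 : checkA DD 82 83 = true := by decide +kernel

theorem run_83_84 : checkA DD 83 84 = true := by decide +kernel

end Pool.Agent.helper237_G5
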