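import Pool.Agent.helper237_G5.Data

namespace Pool.Agent.helper237_G5

set_option maxRecDepth 100000

theorem run_84_85 : checkA DD 84 85 = true := by decide +kernel

theorem run_85_86 : checkA DD 85 86 = true := by decide +kernel

theorem run_86_87 : checkA DD 86 87 = true := by decide +kernel

end Pool.Agent.helper237_G5
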