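import Pool.Agent.helper237_G5.Data

namespace Pool.Agent.helper237_G5

set_option maxRecDepth 100000

theorem run_87_88 : checkA DD 87 88 = true := by decide +kernel

theorem run_88_89 : checkA DD 88 89 = true := by decide +kernel

theorem run_89_90 : checkA DD 89 90 = true := by decide +kernel

end Pool.Agent.helper237_G5
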