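import Pool.Agent.helper237_G5.Data

namespace Pool.Agent.helper237_G5

set_option maxRecDepth 100000

theorem run_90_91 : checkA DD 90 91 = true := by decide +kernel

theorem run_91_92 : checkA DD 91 92 = true := by decide +kernel

theorem run_92_93 : checkA DD 92 93 = true := by decide +kernel

end Pool.Agent.helper237_G5
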