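import Pool.Agent.helper237_G5.Data

namespace Pool.Agent.helper237_G5

set_option maxRecDepth 100000

theorem run_93_94 : checkA DD 93 94 = true := by decide +kernel

theorem run_94_95 : checkA DD 94 95 = true := by decide +kernel

theorem run_95_96 : checkA DD 95 96 = true := by decide +kernel

end Pool.Agent.helper237_G5
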