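import Pool.Agent.helper237_G5.Data

namespace Pool.Agent.helper237_G5

set_option maxRecDepth 100000

theorem run_96_97 : checkA DD 96 97 = true := by decide +kernel

theorem run_97_98 : checkA DD 97 98 = true := by decide +kernel

theorem run_98_99 : checkA DD 98 99 = true := by decide +kernel

end Pool.Agent.helper237_G5
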