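import Pool.Agent.helper237_G5.Data

namespace Pool.Agent.helper237_G5

set_option maxRecDepth 100000

theorem run_99_100 : checkA DD 99 100 = true := by decide +kernel

theorem run_100_101 : checkA DD 100 101 = true := by decide +kernel

theorem run_101_102 : checkA DD 101 102 = true := by decide +kernel

end Pool.Agent.helper237_G5
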