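import Pool.Agent.helper237_G5.Data

namespace Pool.Agent.helper237_G5

set_option maxRecDepth 100000

theorem run_102_103 : checkA DD 102 103 = true := by decide +kernel

theorem run_103_104 : checkA DD 103 104 = true := by decide +kernel

theorem run_104_105 : checkA DD 104 105 = true := by decide +kernel

end Pool.Agent.helper237_G5
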