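import Pool.Agent.helper237_G5.Data

namespace Pool.Agent.helper237_G5

set_option maxRecDepth 100000

theorem run_105_106 : checkA DD 105 106 = true := by decide +kernel

theorem run_106_107 : checkA DD 106 107 = true := by decide +kernel

theorem run_107_108 : checkA DD 107 108 = true := by decide +kernel

end Pool.Agent.helper237_G5
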