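import Pool.Agent.helper237_G5.Data

namespace Pool.Agent.helper237_G5

set_option maxRecDepth 100000

theorem run_108_109 : checkA DD 108 109 = true := by decide +kernel

theorem run_109_110 : checkA DD 109 110 = true := by decide +kernel

theorem run_110_111 : checkA DD 110 111 = true := by decide +kernel

end Pool.Agent.helper237_G5
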