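import Pool.Agent.helper237_G5.Data

namespace Pool.Agent.helper237_G5

set_option maxRecDepth 100000

theorem run_111_112 : checkA DD 111 112 = true := by decide +kernel

theorem run_112_113 : checkA DD 112 113 = true := by decide +kernel

theorem run_113_114 : checkA DD 113 114 = true := by decide +kernel

end Pool.Agent.helper237_G5
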