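import Pool.Agent.helper237_G5.Data

namespace Pool.Agent.helper237_G5

set_option maxRecDepth 100000

theorem run_120_121 : checkA DD 120 121 = true := by decide +kernel

theorem run_121_122 : checkA DD 121 122 = true := by decide +kernel

theorem run_122_123 : checkA DD 122 123 = true := by decide +kernel

end Pool.Agent.helper237_G5
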