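import Pool.Agent.helper237_G5.Data

namespace Pool.Agent.helper237_G5

set_option maxRecDepth 100000

theorem run_123_124 : checkA DD 123 124 = true := by decide +kernel

theorem run_124_126 : checkA DD 124 126 = true := by decide +kernel

theorem run_126_128 : checkA DD 126 128 = true := by decide +kernel

end Pool.Agent.helper237_G5
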