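import Pool.Agent.helper237_G5.Data

namespace Pool.Agent.helper237_G5

set_option maxRecDepth 100000

theorem run_128_130 : checkA DD 128 130 = true := by decide +kernel

theorem run_130_132 : checkA DD 130 132 = true := by decide +kernel

theorem run_132_134 : checkA DD 132 134 = true := by decide +kernel

end Pool.Agent.helper237_G5
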