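import Pool.Agent.helper237_G5.run.R00
import Pool.Agent.helper237_G5.run.R01
import Pool.Agent.helper237_G5.run.R02
import Pool.Agent.helper237_G5.run.R03
import Pool.Agent.helper237_G5.run.R04
import Pool.Agent.helper237_G5.run.R05
import Pool.Agent.helper237_G5.run.R06
import Pool.Agent.helper237_G5.run.R07
import Pool.Agent.helper237_G5.run.R08
import Pool.Agent.helper237_G5.run.R09
import Pool.Agent.helper237_G5.run.R10
import Pool.Agent.helper237_G5.run.R11
import Pool.Agent.helper237_G5.run.R12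
import Pool.Agent.helper237_G5.run.R13
import Pool.Agent.helper237_G5.run.R14
import Pool.Agent.helper237_G5.run.R15
import Pool.Agent.helper237_G5.run.R16
import Pool.Agent.helper237_G5.run.R17
import Pool.Agent.helper237_G5.run.R18
import Pool.Agent.helper237_G5.run.R19
import Pool.Agent.helper237_G5.run.R20
import Pool.Agent.helper237_G5.run.R21
import Pool.Agent.helper237_G5.run.R22
import Pool.Agent.helper237_G5.run.R23
import Pool.Agent.helper237_G5.run.R24
import Pool.Agent.helper237_G5.run.R25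
import Pool.Agent.helper237_G5.run.R26
import Pool.Agent.helper237_G5.run.R27
import Pool.Agent.helper237_G5.run.R28
import Pool.Agent.helper237_G5.run.R29
import Pool.Agent.helper237_G5.run.R30
import Pool.Agent.helper237_G5.run.R31
import Pool.Agent.helper237_G5.run.R32
import Pool.Agent.helper237_G5.run.R33
import Pool.Agent.helper237_G5.run.R34
import Pool.Agent.helper237_G5.run.R35
import Pool.Agent.helper237_G5.run.R36
import Pool.Agent.helper237_G5.run.R37
import Pool.Agent.helper237_G5.run.R38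
import Pool.Agent.helper237_G5.run.R39
import Pool.Agent.helper237_G5.run.R40
import Pool.Agent.helper237_G5.run.R41
import Pool.Agent.helper237_G5.run.R42
import Pool.Agent.helper237_G5.run.R43

namespace Pool.Agent.helper237_G5

/-- all runs are covered -/
theorem run_all : ∀ a, 1 ≤ a → a ≤ 140 → ∃ a1 a2, a1 ≤ a ∧ a < a2 ∧ checkA DD a1 a2 = true := by
  intro a h1 h2
  rcases Nat.lt_or_ge a 2 with h | h
  · exact ⟨1, 2, by omega, h, run_1_2⟩
  rcases Nat.lt_or_ge a 3 with h | h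
  · exact ⟨2, 3, by omega, h, run_2_3⟩
  rcases Nat.lt_or_ge a 4 with h | h
  · exact ⟨3, 4, by omega, h, run_3_4⟩
  rcases Nat.lt_or_ge a 5 with h | h
  · exact ⟨4, 5, by omega, h, run_4_5⟩
  rcases Nat.lt_or_ge a 6 with h | h
  · exact ⟨5, 6, by omega, h, run_5_6⟩
  rcases Nat.lt_or_ge a 7 with h | h
  · exact ⟨6, 7, by omega, h, run_6_7⟩
  rcases Nat.lt_or_ge a 8 with h | h
  · exact ⟨7, 8, by omega, h, run_7_8⟩
  rcases Nat.lt_or_ge a 9 with h | h
  · exact ⟨8, 9, by omega, h, run_8_9⟩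
  rcases Nat.lt_or_ge a 10 with h | h
  · exact ⟨9, 10, by omega, h, run_9_10⟩
  rcases Nat.lt_or_ge a 11 with h | h
  · exact ⟨10, 11, by omega, h, run_10_11⟩
  rcases Nat.lt_or_ge a 12 with h | h
  · exact ⟨11, 12, by omega, h, run_11_12⟩
  rcases Nat.lt_or_ge a 13 with h | h
  · exact ⟨12, 13, by omega, h, run_12_13⟩
  rcases Nat.lt_or_ge a 14 with h | h
  · exact ⟨13, 14, by omega, h, run_13_14⟩
  rcases Nat.lt_or_ge a 15 with h | h
  · exact ⟨14, 15, by omega, h, run_14_15⟩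
  rcases Nat.lt_or_ge a 16 with h | h
  · exact ⟨15, 16, by omega, h, run_15_16⟩
  rcases Nat.lt_or_ge a 17 with h | h
  · exact ⟨16, 17, by omega, h, run_16_17⟩
  rcases Nat.lt_or_ge a 18 with h | h
  · exact ⟨17, 18, by omega, h, run_17_18⟩
  rcases Nat.lt_or_ge a 19 with h | h
  · exact ⟨18, 19, by omega, h, run_18_19⟩
  rcases Nat.lt_or_ge a 20 with h | h
  · exact ⟨19, 20, by omega, h, run_19_20⟩
  rcases Nat.lt_or_ge a 21 with h | h
  · exact ⟨20, 21, by omega, h, run_20_21⟩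
  rcases Nat.lt_or_ge a 22 with h | h
  · exact ⟨21, 22, by omega, h, run_21_22⟩
  rcases Nat.lt_or_ge a 23 with h | h
  · exact ⟨22, 23, by omega, h, run_22_23⟩
  rcases Nat.lt_or_ge a 24 with h | h
  · exact ⟨23, 24, by omega, h, run_23_24⟩
  rcases Nat.lt_or_ge a 25 with h | h
  · exact ⟨24, 25, by omega, h, run_24_25⟩
  rcases Nat.lt_or_ge a 26 with h | h
  · exact ⟨25, 26, by omega, h, run_25_26⟩
  rcases Nat.lt_or_ge a 27 with h | h
  · exact ⟨26, 27, by omega, h, run_26_27⟩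
  rcases Nat.lt_or_ge a 28 with h | h
  · exact ⟨27, 28, by omega, h, run_27_28⟩
  rcases Nat.lt_or_ge a 29 with h | h
  · exact ⟨28, 29, by omega, h, run_28_29⟩
  rcases Nat.lt_or_ge a 30 with h | h
  · exact ⟨29, 30, by omega, h, run_29_30⟩
  rcases Nat.lt_or_ge a 31 with h | h
  · exact ⟨30, 31, by omega, h, run_30_31⟩
  rcases Nat.lt_or_ge a 32 with h | h
  · exact ⟨31, 32, by omega, h, run_31_32⟩
  rcases Nat.lt_or_ge a 33 with h | h
  · exact ⟨32, 33, by omega, h, run_32_33⟩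
  rcases Nat.lt_or_ge a 34 with h | h
  · exact ⟨33, 34, by omega, h, run_33_34⟩
  rcases Nat.lt_or_ge a 35 with h | h
  · exact ⟨34, 35, by omega, h, run_34_35⟩
  rcases Nat.lt_or_ge a 36 with h | h
  · exact ⟨35, 36, by omega, h, run_35_36⟩
  rcases Nat.lt_or_ge a 37 with h | h
  · exact ⟨36, 37, by omega, h, run_36_37⟩
  rcases Nat.lt_or_ge a 38 with h | h
  · exact ⟨37, 38, by omega, h, run_37_38⟩
  rcases Nat.lt_or_ge a 39 with h | h
  · exact ⟨38, 39, by omega, h, run_38_39⟩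
  rcases Nat.lt_or_ge a 40 with h | h
  · exact ⟨39, 40, by omega, h, run_39_40⟩
  rcases Nat.lt_or_ge a 41 with h | h
  · exact ⟨40, 41, by omega, h, run_40_41⟩
  rcases Nat.lt_or_ge a 42 with h | h
  · exact ⟨41, 42, by omega, h, run_41_42⟩
  rcases Nat.lt_or_ge a 43 with h | h
  · exact ⟨42, 43, by omega, h, run_42_43⟩
  rcases Nat.lt_or_ge a 44 with h | h
  · exact ⟨43, 44, by omega, h, run_43_44⟩
  rcases Nat.lt_or_ge a 45 with h | h
  · exact ⟨44, 45, by omega, h, run_44_45⟩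
  rcases Nat.lt_or_ge a 46 with h | h
  · exact ⟨45, 46, by omega, h, run_45_46⟩
  rcases Nat.lt_or_ge a 47 with h | h
  · exact ⟨46, 47, by omega, h, run_46_47⟩
  rcases Nat.lt_or_ge a 48 with h | h
  · exact ⟨47, 48, by omega, h, run_47_48⟩
  rcases Nat.lt_or_ge a 49 with h | h
  · exact ⟨48, 49, by omega, h, run_48_49⟩
  rcases Nat.lt_or_ge a 50 with h | h
  · exact ⟨49, 50, by omega, h, run_49_50⟩
  rcases Nat.lt_or_ge a 51 with h | h
  · exact ⟨50, 51, by omega, h, run_50_51⟩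
  rcases Nat.lt_or_ge a 52 with h | h
  · exact ⟨51, 52, by omega, h, run_51_52⟩
  rcases Nat.lt_or_ge a 53 with h | h
  · exact ⟨52, 53, by omega, h, run_52_53⟩
  rcases Nat.lt_or_ge a 54 with h | h
  · exact ⟨53, 54, by omega, h, run_53_54⟩
  rcases Nat.lt_or_ge a 55 with h | h
  · exact ⟨54, 55, by omega, h, run_54_55⟩
  rcases Nat.lt_or_ge a 56 with h | h
  · exact ⟨55, 56, by omega, h, run_55_56⟩
  rcases Nat.lt_or_ge a 57 with h | h
  · exact ⟨56, 57, by omega, h, run_56_57⟩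
  rcases Nat.lt_or_ge a 58 with h | h
  · exact ⟨57, 58, by omega, h, run_57_58⟩
  rcases Nat.lt_or_ge a 59 with h | h
  · exact ⟨58, 59, by omega, h, run_58_59⟩
  rcases Nat.lt_or_ge a 60 with h | h
  · exact ⟨59, 60, by omega, h, run_59_60⟩
  rcases Nat.lt_or_ge a 61 with h | h
  · exact ⟨60, 61, by omega, h, run_60_61⟩
  rcases Nat.lt_or_ge a 62 with h | h
  · exact ⟨61, 62, by omega, h, run_61_62⟩
  rcases Nat.lt_or_ge a 63 with h | h
  · exact ⟨62, 63, by omega, h, run_62_63⟩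
  rcases Nat.lt_or_ge a 64 with h | h
  · exact ⟨63, 64, by omega, h, run_63_64⟩
  rcases Nat.lt_or_ge a 65 with h | h
  · exact ⟨64, 65, by omega, h, run_64_65⟩
  rcases Nat.lt_or_ge a 66 with h | h
  · exact ⟨65, 66, by omega, h, run_65_66⟩
  rcases Nat.lt_or_ge a 67 with h | h
  · exact ⟨66, 67, by omega, h, run_66_67⟩
  rcases Nat.lt_or_ge a 68 with h | h
  · exact ⟨67, 68, by omega, h, run_67_68⟩
  rcases Nat.lt_or_ge a 69 with h | h
  · exact ⟨68, 69, by omega, h, run_68_69⟩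
  rcases Nat.lt_or_ge a 70 with h | h
  · exact ⟨69, 70, by omega, h, run_69_70⟩
  rcases Nat.lt_or_ge a 71 with h | h
  · exact ⟨70, 71, by omega, h, run_70_71⟩
  rcases Nat.lt_or_ge a 72 with h | h
  · exact ⟨71, 72, by omega, h, run_71_72⟩
  rcases Nat.lt_or_ge a 73 with h | h
  · exact ⟨72, 73, by omega, h, run_72_73⟩
  rcases Nat.lt_or_ge a 74 with h | h
  · exact ⟨73, 74, by omega, h, run_73_74⟩
  rcases Nat.lt_or_ge a 75 with h | h
  · exact ⟨74, 75, by omega, h, run_74_75⟩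
  rcases Nat.lt_or_ge a 76 with h | h
  · exact ⟨75, 76, by omega, h, run_75_76⟩
  rcases Nat.lt_or_ge a 77 with h | h
  · exact ⟨76, 77, by omega, h, run_76_77⟩
  rcases Nat.lt_or_ge a 78 with h | h
  · exact ⟨77, 78, by omega, h, run_77_78⟩
  rcases Nat.lt_or_ge a 79 with h | h
  · exact ⟨78, 79, by omega, h, run_78_79⟩
  rcases Nat.lt_or_ge a 80 with h | h
  · exact ⟨79, 80, by omega, h, run_79_80⟩
  rcases Nat.lt_or_ge a 81 with h | h
  · exact ⟨80, 81, by omega, h, run_80_81⟩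
  rcases Nat.lt_or_ge a 82 with h | h
  · exact ⟨81, 82, by omega, h, run_81_82⟩
  rcases Nat.lt_or_ge a 83 with h | h
  · exact ⟨82, 83, by omega, h, run_82_83⟩
  rcases Nat.lt_or_ge a 84 with h | h
  · exact ⟨83, 84, by omega, h, run_83_84⟩
  rcases Nat.lt_or_ge a 85 with h | h
  · exact ⟨84, 85, by omega, h, run_84_85⟩
  rcases Nat.lt_or_ge a 86 with h | h
  · exact ⟨85, 86, by omega, h, run_85_86⟩
  rcases Nat.lt_or_ge a 87 with h | h
  · exact ⟨86, 87, by omega, h, run_86_87⟩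
  rcases Nat.lt_or_ge a 88 with h | h
  · exact ⟨87, 88, by omega, h, run_87_88⟩
  rcases Nat.lt_or_ge a 89 with h | h
  · exact ⟨88, 89, by omega, h, run_88_89⟩
  rcases Nat.lt_or_ge a 90 with h | h
  · exact ⟨89, 90, by omega, h, run_89_90⟩
  rcases Nat.lt_or_ge a 91 with h | h
  · exact ⟨90, 91, by omega, h, run_90_91⟩
  rcases Nat.lt_or_ge a 92 with h | h
  · exact ⟨91, 92, by omega, h, run_91_92⟩
  rcases Nat.lt_or_ge a 93 with h | h
  · exact ⟨92, 93, by omega, h, run_92_93⟩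
  rcases Nat.lt_or_ge a 94 with h | h
  · exact ⟨93, 94, by omega, h, run_93_94⟩
  rcases Nat.lt_or_ge a 95 with h | h
  · exact ⟨94, 95, by omega, h, run_94_95⟩
  rcases Nat.lt_or_ge a 96 with h | h
  · exact ⟨95, 96, by omega, h, run_95_96⟩
  rcases Nat.lt_or_ge a 97 with h | h
  · exact ⟨96, 97, by omega, h, run_96_97⟩
  rcases Nat.lt_or_ge a 98 with h | h
  · exact ⟨97, 98, by omega, h, run_97_98⟩
  rcases Nat.lt_or_ge a 99 with h | h
  · exact ⟨98, 99, by omega, h, run_98_99⟩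
  rcases Nat.lt_or_ge a 100 with h | h
  · exact ⟨99, 100, by omega, h, run_99_100⟩
  rcases Nat.lt_or_ge a 101 with h | h
  · exact ⟨100, 101, by omega, h, run_100_101⟩
  rcases Nat.lt_or_ge a 102 with h | h
  · exact ⟨101, 102, by omega, h, run_101_102⟩
  rcases Nat.lt_or_ge a 103 with h | h
  · exact ⟨102, 103, by omega, h, run_102_103⟩
  rcases Nat.lt_or_ge a 104 with h | h
  · exact ⟨103, 104, by omega, h, run_103_104⟩
  rcases Nat.lt_or_ge a 105 with h | h
  · exact ⟨104, 105, by omega, h, run_104_105⟩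
  rcases Nat.lt_or_ge a 106 with h | h
  · exact ⟨105, 106, by omega, h, run_105_106⟩
  rcases Nat.lt_or_ge a 107 with h | h
  · exact ⟨106, 107, by omega, h, run_106_107⟩
  rcases Nat.lt_or_ge a 108 with h | h
  · exact ⟨107, 108, by omega, h, run_107_108⟩
  rcases Nat.lt_or_ge a 109 with h | h
  · exact ⟨108, 109, by omega, h, run_108_109⟩
  rcases Nat.lt_or_ge a 110 with h | h
  · exact ⟨109, 110, by omega, h, run_109_110⟩
  rcases Nat.lt_or_ge a 111 with h | h
  · exact ⟨110, 111, by omega, h, run_110_111⟩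
  rcases Nat.lt_or_ge a 112 with h | h
  · exact ⟨111, 112, by omega, h, run_111_112⟩
  rcases Nat.lt_or_ge a 113 with h | h
  · exact ⟨112, 113, by omega, h, run_112_113⟩
  rcases Nat.lt_or_ge a 114 with h | h
  · exact ⟨113, 114, by omega, h, run_113_114⟩
  rcases Nat.lt_or_ge a 115 with h | h
  · exact ⟨114, 115, by omega, h, run_114_115⟩
  rcases Nat.lt_or_ge a 116 with h | h
  · exact ⟨115, 116, by omega, h, run_115_116⟩
  rcases Nat.lt_or_ge a 117 with h | h
  · exact ⟨116, 117, by omega, h, run_116_117⟩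
  rcases Nat.lt_or_ge a 118 with h | h
  · exact ⟨117, 118, by omega, h, run_117_118⟩
  rcases Nat.lt_or_ge a 119 with h | h
  · exact ⟨118, 119, by omega, h, run_118_119⟩
  rcases Nat.lt_or_ge a 120 with h | h
  · exact ⟨119, 120, by omega, h, run_119_120⟩
  rcases Nat.lt_or_ge a 121 with h | h
  · exact ⟨120, 121, by omega, h, run_120_121⟩
  rcases Nat.lt_or_ge a 122 with h | h
  · exact ⟨121, 122, by omega, h, run_121_122⟩
  rcases Nat.lt_or_ge a 123 with h | h
  · exact ⟨122, 123, by omega, h, run_122_123⟩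
  rcases Nat.lt_or_ge a 124 with h | h
  · exact ⟨123, 124, by omega, h, run_123_124⟩
  rcases Nat.lt_or_ge a 126 with h | h
  · exact ⟨124, 126, by omega, h, run_124_126⟩
  rcases Nat.lt_or_ge a 128 with h | h
  · exact ⟨126, 128, by omega, h, run_126_128⟩
  rcases Nat.lt_or_ge a 130 with h | h
  · exact ⟨128, 130, by omega, h, run_128_130⟩
  rcases Nat.lt_or_ge a 132 with h | h
  · exact ⟨130, 132, by omega, h, run_130_132⟩
  rcases Nat.lt_or_ge a 134 with h | h
  · exact ⟨132, 134, by omega, h, run_132_134⟩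
  rcases Nat.lt_or_ge a 137 with h | h
  · exact ⟨134, 137, by omega, h, run_134_137⟩
  rcases Nat.lt_or_ge a 141 with h | h
  · exact ⟨137, 141, by omega, h, run_137_141⟩
  omega

end Pool.Agent.helper237_G5
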