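import Pool.Agent.helper237_G5.Data

namespace Pool.Agent.helper237_G5

set_option maxRecDepth 100000

theorem run_36_37 : checkA DD 36 37 = true := by decide +kernel

theorem run_37_38 : checkA DD 37 38 = true := by decide +kernel

theorem run_38_39 : checkA DD 38 39 = true := by decide +kernel

end Pool.Agent.helper237_G5
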