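import Pool.Agent.helper237_G5.Data

namespace Pool.Agent.helper237_G5

set_option maxRecDepth 100000

theorem run_75_76 : checkA DD 75 76 = true := by decide +kernel

theorem run_76_77 : checkA DD 76 77 = true := by decide +kernel

theorem run_77_78 : checkA DD 77 78 = true := by decide +kernel

end Pool.Agent.helper237_G5
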