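import Pool.Agent.helper237_G5.Data

namespace Pool.Agent.helper237_G5

set_option maxRecDepth 100000

theorem run_114_115 : checkA DD 114 115 = true := by decide +kernel

theorem run_115_116 : checkA DD 115 116 = true := by decide +kernel

theorem run_116_117 : checkA DD 116 117 = true := by decide +kernel

end Pool.Agent.helper237_G5
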